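import Mathlib
import Pool.Agent.Helper967.RD9

set_option autoImplicit false

/-! The fixed rings `ℤ^tr(σ)` are undecidable: for every `σ` in `Gal(ℚ^tr/ℚ)`, and so in particular
for almost all `σ` with respect to the normalised Haar measure. -/

namespace Pool.Agent.Results.MP_96f494_lc.AlmostAllUndecidable

open FirstOrder FirstOrder.Language IntermediateField MeasureTheory NumberField
open Pool.Agent.Helper967.TR

/-- Truth of sentences is invariant under ring isomorphism. -/
theorem trueIn_congr {R S : Type} [CommRing R] [CommRing S] (e : R ≃+* S)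
    (φ : Language.ring.Sentence) : TrueIn R φ ↔ TrueIn S φ := by
  unfold TrueIn
  let _ := FirstOrder.Ring.compatibleRingOfRing R
  let _ := FirstOrder.Ring.compatibleRingOfRing S
  exact StrongHomClass.realize_sentence (FirstOrder.Ring.languageEquivEquivRingEquiv.symm e) φ

/-- Decidability of the theory is invariant under ring isomorphism. -/
theorem decidableTheory_congr {R S : Type} [CommRing R] [CommRing S] (e : R ≃+* S) :
    DecidableTheory R ↔ DecidableTheory S := by
  unfold DecidableTheory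
  simp only [trueIn_congr e]

/-- The fixed field `ℚ^tr(σ)` of `σ`. -/
noncomputable def fixedFld (σ : Gal(Qtr/ℚ)) : IntermediateField ℚ Qtr :=
  IntermediateField.fixedField (Subgroup.zpowers σ)

theorem mem_fixedFld (σ : Gal(Qtr/ℚ)) (x : Qtr) : x ∈ fixedFld σ ↔ σ x = x := by
  unfold fixedFld
  rw [IntermediateField.mem_fixedField_iff]
  constructor
  · intro h
    exact h σ (Subgroup.mem_zpowers σ)
  · intro h f hf
    have h2 : Subgroup.zpowers σ ≤ MulAction.stabilizer (Gal(Qtr/ℚ)) x := by
      rw [Subgroup.zpowers_le, MulAction.mem_stabilizer_iff]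
      exact h
    exact MulAction.mem_stabilizer_iff.1 (h2 hf)

/-- The ring `ℤ^tr(σ)` is the ring of integers of the field `ℚ^tr(σ)`. -/
noncomputable def fixedRingEquiv (σ : Gal(Qtr/ℚ)) : fixedRing σ ≃+* 𝓞 (fixedFld σ) where
  toFun x := ⟨⟨x.1, (mem_fixedFld σ x.1).2 x.2.2⟩,
    (isIntegral_algebraMap_iff (A := fixedFld σ) (B := Qtr) (R := ℤ)
      (x := ⟨x.1, (mem_fixedFld σ x.1).2 x.2.2⟩) Subtype.val_injective).1 x.2.1⟩
  invFun y := ⟨(y : fixedFld σ).1,
    (isIntegral_algebraMap_iff (A := fixedFld σ) (B := Qtr) (R := ℤ)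
      (x := (y : fixedFld σ)) Subtype.val_injective).2 (RingOfIntegers.isIntegral_coe y),
    (mem_fixedFld σ _).1 (y : fixedFld σ).2⟩
  left_inv _ := rfl
  right_inv _ := rfl
  map_mul' _ _ := rfl
  map_add' _ _ := rfl

/-- For every `σ ∈ Gal(ℚ^tr/ℚ)` the first-order theory of the ring `ℤ^tr(σ)` is undecidable; in
particular this holds for almost all `σ`, for the normalised Haar measure `μ` on `Gal(ℚ^tr/ℚ)`. -/
theorem result :
    (∀ σ : Gal(Qtr/ℚ), ¬ DecidableTheory (fixedRing σ)) ∧
    (∀ [MeasurableSpace Gal(Qtr/ℚ)] [BorelSpace Gal(Qtr/ℚ)] (μ : Measure Gal(Qtr/ℚ))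
      [μ.IsHaarMeasure] [IsProbabilityMeasure μ],
      ∀ᵐ σ ∂μ, ¬ DecidableTheory (fixedRing σ)) := by
  have key : ∀ σ : Gal(Qtr/ℚ), ¬ DecidableTheory (fixedRing σ) := by
    intro σ h
    exact Pool.Agent.Helper967.RD.all_undecidable (fixedFld σ)
      ((decidableTheory_congr (fixedRingEquiv σ)).1 h)
  exact ⟨key, fun μ _ _ => Filter.Eventually.of_forall key⟩

end Pool.Agent.Results.MP_96f494_lc.AlmostAllUndecidable
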